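import Pool.Agent.H94.CB.M131
import Pool.Agent.H94.CB.M175
import Pool.Agent.H94.CB.M250
import Pool.Agent.H94.CB.M256

/-!
# H19E AffN: affine surfaces of log general type over an elliptic curve

The entire curves in the fibres over all but finitely many points are constant (`H17V`), and the entire curves in the curves `H i = 0` which lie in a fibre lie over
finitely many points; so `FibreCondition` (`H86/LS`) is satisfied.
-/

set_option autoImplicit false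

open Topology Filter MvPolynomial Metric

noncomputable section

namespace Pool.Agent.H19E

attribute [-instance] ProperSMul.toContinuousSMul

open Pool.Agent.H17 (PN VanishesAt HolomorphicInto ZariskiClosedIn)
open Pool.Agent.H62.FC (Homog)
open Pool.Agent.H62.SA (locVar OnBd locCone)
open Pool.Agent.H62.EF (Lat)
open Pool.Agent.H13.SM (cone conTan)
open Pool.Agent.H17BP (Surface IsChart HolP Pr)
open Pool.Agent.H17LG.Variety (FunField IsLogGeneralType)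
open Pool.Agent.H36.BP (EN)
open Pool.Agent.H36.LB (IsCurveComplement)
open Pool.Agent.H17G (image_finite)
open Pool.Agent.H17EF (projVar IsHolomorphicMap coneE uE LE lat_of_basis mk_mem_projVar uE_eq sub_mem_iff exists_prod exists_lift)
open Pool.Agent.H17N (NowhereConstant fibre_formN)
open Pool.Agent.H17V (VData GoodC SC exists_vdata exists_badV vert_const)
open Pool.Agent.H86.LS (FibreCondition IsSectionIn HasPole main_four eq_two_of_basis)
open Pool.Agent.H7.Bir (GGLOpen)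
open Pool.Agent.H14.KB (KobayashiHyperbolicModulo)

section Const

variable {V : Type} [NormedAddCommGroup V] [NormedSpace ℂ V] {X K : Set V} {Λ : AddSubgroup ℂ} {u : V → ℂ} {m d : ℕ} {Ω : V → V → V → ℂ} {q : V → ℂ}
  {c : ℂ}

/-- Locally constant maps to the projective space are constant. -/
theorem pr_const {f : ℂ → V} (h : ∀ z₀, ∀ᶠ z in 𝓝 z₀, Pr (f z) (f z₀)) (z w : ℂ) : Pr (f z) (f w) := by
  have h1 : IsOpen {z | Pr (f z) (f w)} := by
    rw [isOpen_iff_mem_nhds]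
    intro z₀ h0
    filter_upwards [h z₀] with z hz
    exact hz.trans h0
  have h2 : IsOpen {z | Pr (f z) (f w)}ᶜ := by
    rw [isOpen_iff_mem_nhds]
    intro z₀ h0
    filter_upwards [h z₀] with z hz
    exact fun h3 => h0 (hz.symm.trans h3)
  have h3 : IsClopen {z | Pr (f z) (f w)} := ⟨⟨h2⟩, h1⟩
  rcases isClopen_iff.1 h3 with h4 | h4
  · exact absurd (show w ∈ {z | Pr (f z) (f w)} from Pr.refl _) (by rw [h4]; exact Set.notMem_empty _)
  · have h5 : z ∈ {z | Pr (f z) (f w)} := by rw [h4]; exact Set.mem_univ z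
    exact h5

/-- A curve in a good fibre along which `q` is zero is constant. -/
theorem const_of_zero (hΛ : Lat Λ) (h : VData X K Λ u m Ω q d) (hc : GoodC X K Λ u q c) {f : ℂ → V} (hf : ∀ z, HolP f z)
    (hfX : ∀ z, f z ∈ X) (hfu : ∀ z, u (f z) - c ∈ Λ) (hq : ∀ z, q (f z) = 0) (z w : ℂ) : Pr (f z) (f w) := by
  refine pr_const (fun z₀ => ?_) z w
  obtain ⟨F, hF, hF0, hFf⟩ := hf z₀
  obtain ⟨δ, hδ, hdisc⟩ := hΛ.discrete
  -- the properties of `F`
  have hFX : ∀ᶠ z in 𝓝 z₀, F z ∈ X ∧ u (F z) - c ∈ Λ ∧ q (F z) = 0 := by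
    filter_upwards [hFf] with z hz
    obtain ⟨a, ha, haf⟩ := hz.symm
    refine ⟨by rw [haf]; exact h.surf.smul _ (hfX z) a ha, ?_, ?_⟩
    · have h1 := h.tor.smul _ (hfX z) a ha
      rw [← haf] at h1
      have h2 := Λ.add_mem h1 (hfu z)
      rwa [sub_add_sub_cancel] at h2
    · rw [haf, h.hom, hq, mul_zero]
  obtain ⟨hx1, hx2, -⟩ := hFX.self_of_nhds
  obtain ⟨σ, τ, hS, hσ0, hne⟩ := hc _ hx1 hx2
  have hch := hS.chart
  -- the zeros of `q` on the fibre are isolated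
  have hg : AnalyticAt ℂ (fun t : ℂ => q (σ (0, t))) 0 := by
    have h1 : AnalyticAt ℂ (fun t : ℂ => ((0 : ℂ), t)) 0 := analyticAt_const.prod analyticAt_id
    have h2 : AnalyticAt ℂ (fun t : ℂ => σ (0, t)) 0 := AnalyticAt.fun_comp (g := σ) (f := fun t : ℂ => ((0 : ℂ), t)) hch.σ_an h1
    exact AnalyticAt.fun_comp (g := q) (f := fun t : ℂ => σ (0, t)) (h.an _) h2
  have hg0 : ∀ᶠ t in 𝓝[≠] (0 : ℂ), q (σ (0, t)) ≠ 0 := hg.eventually_eq_zero_or_eventually_ne_zero.resolve_left hne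
  -- the coordinates of `F`
  have hFc : Tendsto F (𝓝 z₀) (𝓝 (σ 0)) := by
    rw [hσ0]
    exact hF.continuousAt
  have hτ0 : τ (σ 0) = 0 := hch.left.self_of_nhds
  have hτc : Tendsto (fun z => τ (F z)) (𝓝 z₀) (𝓝 (0 : ℂ × ℂ)) := by
    have h1 := hch.τ_an.continuousAt.tendsto.comp hFc
    rwa [hτ0] at h1
  have ht2 : Tendsto (fun z => (τ (F z)).2) (𝓝 z₀) (𝓝 (0 : ℂ)) := (continuous_snd.tendsto _).comp hτc
  have ht1 : ∀ᶠ z in 𝓝 z₀, ‖(τ (F z)).1‖ < δ := by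
    have h1 : Tendsto (fun z => (τ (F z)).1) (𝓝 z₀) (𝓝 (0 : ℂ)) := (continuous_fst.tendsto _).comp hτc
    have h2 := h1.norm
    rw [norm_zero] at h2
    exact h2.eventually (gt_mem_nhds hδ)
  have hg0' : ∀ᶠ z in 𝓝 z₀, (τ (F z)).2 ≠ 0 → q (σ (0, (τ (F z)).2)) ≠ 0 := ht2.eventually (eventually_nhdsWithin_iff.1 hg0)
  have h0 := hFf.self_of_nhds
  filter_upwards [hFf, hFX, hFc.eventually hch.right, hτc.eventually hS.lift, hτc.eventually hch.σ_mem, ht1, hg0'] with z h1 h2 h3 h4 h5 h6 h7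
  obtain ⟨a, ha, hFa⟩ := h3 h2.1
  -- the first coordinate is zero
  have h8 : (τ (F z)).1 ∈ Λ := by
    have h9 := h.tor.smul _ h5 a ha
    rw [← hFa] at h9
    have h10 : (τ (F z)).1 = (u (F z) - c) - (u (F z) - u (σ (τ (F z)))) - (u (σ (τ (F z))) - (c + (τ (F z)).1)) := by ring
    rw [h10]
    exact Λ.sub_mem (Λ.sub_mem h2.2.1 h9) h4
  have h9 : τ (F z) = (0, (τ (F z)).2) := Prod.ext (hdisc _ h8 h6) rfl
  -- the second coordinate is zero
  have h10 : (τ (F z)).2 = 0 := by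
    by_contra hcon
    have h11 := h2.2.2
    rw [hFa, h.hom, h9] at h11
    exact h7 hcon ((mul_eq_zero.1 h11).resolve_left (pow_ne_zero _ ha))
  have h11 : F z = a • F z₀ := by
    rw [← hσ0]
    rw [h10] at h9
    rw [h9] at hFa
    exact hFa
  exact (h1.trans ⟨a, ha, h11⟩).trans h0.symm

end Const

variable {N s : ℕ} {P : Ideal (MvPolynomial (Fin (N + 1)) ℂ)} [P.IsPrime] {z : Fin 2 → FunField P} {Λ : AddSubgroup ℂ} {u : PN N → ℂ ⧸ Λ}
  {H : Fin s → MvPolynomial (Fin (N + 1)) ℂ} {d : Fin s → ℕ}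

/-- The fibre condition is satisfied if the complement is of log general type. -/
theorem exists_fibre (hP : Homog P) (hz : IsTranscendenceBasis ℂ z) (hX : (projVar P).Nonempty)
    (hsm : ∀ y : Fin (N + 1) → ℂ, y ≠ 0 → (∀ Q ∈ P, eval y Q = 0) → Module.finrank ℂ (conTan P y) ≤ 3)
    (hΛ : Lat Λ) (hu : IsHolomorphicMap (projVar P) Λ u) (hnon : NowhereConstant (projVar P) u) (hH : ∀ i, (H i).IsHomogeneous (d i))
    (hHP : ∀ i, H i ∉ P) (hgt : IsLogGeneralType (K := FunField P) (k := 2) (OnBd P (fun _ : Fin 1 => ∏ i, H i))) :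
    ∃ (B : Set (ℂ ⧸ Λ)) (Z : Set (PN N)), B.Finite ∧ ZariskiClosedIn (projVar P) Z ∧ Z ≠ projVar P ∧ FibreCondition (projVar P) Λ u H B Z := by
  have hS : Surface (cone P) := Pool.Agent.H13.SM.surface_cone hP hz fun y hy => hsm y hy.1 hy.2
  have hG : ∀ _ : Fin 1, (∏ i, H i).IsHomogeneous (∑ i, d i) := fun _ => IsHomogeneous.prod _ _ _ fun i _ => hH i
  have hprod : ∏ i, H i ∉ P := by
    intro h
    obtain ⟨i, -, hi⟩ := (inferInstance : P.IsPrime).prod_mem_iff.1 h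
    exact hHP i hi
  have hC : IsCurveComplement P (fun _ : Fin 1 => ∏ i, H i) := by
    intro x _
    obtain ⟨j, hj⟩ := Function.ne_iff.1 x.rep_nonzero
    refine ⟨X j, ∏ i, H i, 1, _, isHomogeneous_X _ _, hG 0, ?_, fun y hy _ => ⟨fun h => h.2.elim fun _ h => h, fun h => ⟨hy, 0, h⟩⟩⟩
    unfold VanishesAt
    rw [eval_X]
    exact hj
  obtain ⟨m, d', Ω, q, hV⟩ := exists_vdata (G := fun _ : Fin 1 => ∏ i, H i) hP hz hsm hG hC ⟨0, hprod⟩ hgt hu
  obtain ⟨B, hinv, ⟨δ, hδ, hsep⟩, hgood⟩ := exists_badV hΛ hV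
  have hBf := image_finite hΛ hinv hδ hsep
  obtain ⟨R, n, hR, hRP, hRx⟩ := exists_prod (P := P) hBf (A := fun β => {x : PN N | x ∈ projVar P ∧ u x = β}) (by
    rintro _ ⟨b, hb, rfl⟩
    obtain ⟨Q, d, hQ, hQP, hQx⟩ := fibre_formN hP hz hS hΛ hu hnon b
    exact ⟨Q, d, hQ, hQP, fun x hx => hQx x hx.1 hx.2⟩)
  refine ⟨_, {x | x ∈ projVar P ∧ ∀ Q ∈ ({R} : Set (MvPolynomial (Fin (N + 1)) ℂ)), VanishesAt Q x}, hBf,
    ⟨{R}, fun Q hQ => ⟨n, by rw [Set.mem_singleton_iff.1 hQ]; exact hR⟩, rfl⟩, ?_, ?_⟩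
  · intro h1
    apply hRP
    refine Pool.Agent.H7.Bir.mem_of_open (G := fun _ : Fin 1 => (1 : MvPolynomial (Fin (N + 1)) ℂ)) hP (fun _ => ⟨0, isHomogeneous_one _ _⟩) ?_ hR
      fun x hx => ?_
    · obtain ⟨x, hx⟩ := hX
      refine ⟨x, hx, 0, fun h => ?_⟩
      unfold VanishesAt at h
      rw [map_one] at h
      exact one_ne_zero h
    · have h2 : x ∈ projVar P := hx.1
      rw [← h1] at h2
      exact h2.2 R rfl
  · intro f hf hfX hfu hfn hfH
    have hfB : u (f 0) ∈ (fun b : ℂ => (b : ℂ ⧸ Λ)) '' B := by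
      by_contra hcon
      obtain ⟨F, hF, hFf⟩ := exists_lift hf
      have hgan : ∀ z, AnalyticAt ℂ (fun z => (LE N).symm (F z)) z := fun z =>
        (((LE N).symm : EN N →L[ℂ] (Fin (N + 1) → ℂ)).analyticAt _).comp (hF.analyticAt z)
      have hgH : ∀ z, HolP (fun z => (LE N).symm (F z)) z := fun z => ⟨_, hgan z, (hFf z).1, Eventually.of_forall fun _ => Pr.refl _⟩
      have hgX : ∀ z, (LE N).symm (F z) ∈ cone P := fun z => by
        obtain ⟨h1, h2⟩ := hFf z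
        exact (mk_mem_projVar hP h1).1 (h2 ▸ hfX z)
      have hLE : ∀ z, LE N ((LE N).symm (F z)) = F z := fun z => (LE N).apply_symm_apply _
      have hval : ∀ z, ((uE Λ u (LE N ((LE N).symm (F z))) : ℂ) : ℂ ⧸ Λ) = u (f z) := fun z => by
        obtain ⟨h1, h2⟩ := hFf z
        rw [hLE, uE_eq Λ u h1, ← h2]
      have hgu : ∀ z, uE Λ u (LE N ((LE N).symm (F z))) - uE Λ u (LE N ((LE N).symm (F 0))) ∈ Λ := fun z => by
        rw [sub_mem_iff, hval, hval]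
        exact hfu z 0
      have hc : uE Λ u (LE N ((LE N).symm (F 0))) ∉ B := fun h => hcon ⟨_, h, hval 0⟩
      have hev : ∀ i z, VanishesAt (H i) (f z) ↔ eval ((LE N).symm (F z)) (H i) = 0 := fun i z => by
        obtain ⟨h1, h2⟩ := hFf z
        rw [h2]
        exact Pool.Agent.H86.LS.vanishesAt_mk (hH i) h1
      have hpr : ∀ z w, Pr ((LE N).symm (F z)) ((LE N).symm (F w)) := by
        by_cases hD : ∃ i, ∀ z, VanishesAt (H i) (f z)
        · obtain ⟨i, hi⟩ := hD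
          refine const_of_zero hΛ hV (hgood _ hc) hgH hgX hgu fun z => hV.sub _ (hgX z) fun h => ?_
          obtain ⟨-, _, h1⟩ := h
          apply h1
          rw [map_prod]
          exact Finset.prod_eq_zero (Finset.mem_univ i) ((hev i z).1 (hi z))
        · push Not at hD
          refine vert_const hΛ hV (hgood _ hc) hgH (fun z => ⟨hgX z, 0, ?_⟩) hgu
          rw [map_prod]
          refine Finset.prod_ne_zero_iff.2 fun i _ h => ?_
          rcases hfH i with h1 | h1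
          · obtain ⟨z₁, hz₁⟩ := hD i
            exact hz₁ (h1 z₁)
          · exact h1 z ((hev i z).2 h)
      obtain ⟨z₁, w₁, hne⟩ := hfn
      apply hne
      obtain ⟨h1, h2⟩ := hFf z₁
      obtain ⟨h3, h4⟩ := hFf w₁
      rw [h2, h4]
      exact Pool.Agent.H17BP.Pr.mk_eq (hpr z₁ w₁) h1 h3
    refine ⟨hfB, fun _ z => ⟨hfX z, fun Q hQ => ?_⟩⟩
    rw [Set.mem_singleton_iff.1 hQ]
    exact hRx _ (Set.mem_biUnion hfB ⟨hfX z, hfu z 0⟩)

/-- **Affine surfaces of log general type over an elliptic curve.** -/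
theorem affine_ggl (hP : Homog P) (hz : IsTranscendenceBasis ℂ z) (hX : (projVar P).Nonempty)
    (hsm : ∀ y : Fin (N + 1) → ℂ, y ≠ 0 → (∀ Q ∈ P, eval y Q = 0) → Module.finrank ℂ (conTan P y) ≤ 3)
    (hΛ : Lat Λ) (hu : IsHolomorphicMap (projVar P) Λ u) (hnon : NowhereConstant (projVar P) u) (hH : ∀ i, (H i).IsHomogeneous (d i)) (hd : ∀ i, 0 < d i)
    (hHP : ∀ i, H i ∉ P) (hgt : IsLogGeneralType (K := FunField P) (k := 2) (OnBd P (fun _ : Fin 1 => ∏ i, H i)))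
    (hD : (∀ f : ℂ → PN N, HolomorphicInto f Set.univ → (∀ z, f z ∈ projVar P) → (∀ i z, VanishesAt (H i) (f z)) → ∀ z w, f z = f w) ∨
      ∀ B : Set (ℂ ⧸ Λ), B.Finite → ∀ e : ℂ → PN N, IsSectionIn (projVar P) Λ u H B e → HasPole (projVar P) Λ u H B e) :
    ∃ Ξ : Set (PN N), GGLOpen P (fun _ : Fin 1 => ∏ i, H i) Ξ ∧ ∃ (Q : MvPolynomial (Fin (N + 1)) ℂ) (D : ℕ), Q.IsHomogeneous D ∧
      (∃ x ∈ locVar P (fun _ : Fin 1 => ∏ i, H i), ¬ VanishesAt Q x) ∧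
      (∀ x, x ∈ Ξ ↔ x ∈ locVar P (fun _ : Fin 1 => ∏ i, H i) ∧ VanishesAt Q x) ∧
      KobayashiHyperbolicModulo (locVar P (fun _ : Fin 1 => ∏ i, H i)) Q D := by
  obtain ⟨B, Z, hB, hZ, hZX, hfib⟩ := exists_fibre hP hz hX hsm hΛ hu hnon hH hHP hgt
  obtain ⟨-, hbr, hpi, hst, Q, D, hQ, ⟨x₀, hx₀, hx₀Q⟩, hQΞ, hkob⟩ := main_four hP hz hsm hΛ hu hH hd hHP hgt hB (hD.imp id fun h => h B hB) hZ hZX hfib
  refine ⟨{x | x ∈ locVar P (fun _ : Fin 1 => ∏ i, H i) ∧ VanishesAt Q x}, ⟨?_, ?_, fun k _ hk => ?_, ?_, ?_, ?_⟩, Q, D, hQ, ⟨x₀, hx₀, hx₀Q⟩,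
    fun _ => Iff.rfl, hkob⟩
  · refine ⟨{Q}, fun R hR => ⟨D, by rwa [Set.mem_singleton_iff.1 hR]⟩, ?_⟩
    ext x
    simp
  · intro heq
    rw [← heq] at hx₀
    exact hx₀Q hx₀.2
  · obtain rfl := eq_two_of_basis ⟨z, hz⟩ hk
    exact hgt
  · rintro f hf hfU ⟨z₁, hz₁, h1⟩
    exact hpi f hf hfU ⟨z₁, hz₁, fun h => h1 ⟨hfU z₁ hz₁, hQΞ _ h⟩⟩
  · exact fun f hf hfU hfn z => ⟨hfU z, hQΞ _ (hbr f hf hfU hfn z)⟩
  · exact fun Q' _ hQ' hPQ' hsub k hk hzk => hst Q' hQ' hPQ' (fun h => hsub fun x hx => ⟨(h hx).1, hQΞ x (h hx)⟩) k hk hzk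

end Pool.Agent.H19E
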